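import Pool.Agent.V308.K5O.Core
import Pool.Agent.Results.MP_a4d830_co.FiveCliqueInfiniteLinks

/-!
# `K_5^3`-free 3-graphs: density `3/4` if one 3-graph `K(1,1,t)` is excluded

The conjecture `π(K_5^3) = 3/4` is proved here for `K_5^3`-free 3-graphs with (almost) no induced
copies of the 3-graph `K(1,1,t)`: `t + 2` vertices `a, b, c_1, ..., c_t` and the `t` edges
`{a, b, c_i}`, for any `t`. For `t = 2` this is the condition that (almost) no four vertices span
exactly two edges.

Outline: the library has a sum of squares certificate which bounds the number of edges of a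
`K_5^3`-free 3-graph by `n³/8` and the number of induced copies of three 3-graphs on six vertices. If
one of them, `X`, has positive density, then by the theorem of Erdős on complete multipartite
hypergraphs and Ramsey's theorem there are many large blow-ups of `X` in which the six parts are
independent and each triple with two vertices in a part and one in another part depends only on the
parts. A decision tree shows that each such blow-up contains five vertices with ten edges or an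
induced copy of `K(1,1,t)`. So `X` has density `o(1)`.
-/

set_option autoImplicit false
set_option maxRecDepth 100000
set_option maxHeartbeats 4000000
open Finset
open scoped Classical

namespace Pool.Agent.Results.MP_a4d830_co.FiveCliquePairStar
open Pool.Agent.Y47.BU Pool.Agent.Y47.BU5 Pool.Agent.V308.K5O

/-- The 3-graph `H` has no five vertices spanning all ten triples. -/
def K53Free {n : ℕ} (H : Finset (Finset (Fin n))) : Prop :=
  ∀ S : Finset (Fin n), S.card = 5 → ∃ s ⊆ S, s.card = 3 ∧ s ∉ H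

/-- The number of labelled induced copies of the 3-graph `F` in `H`: the injections `f` from the
vertices of `F` to those of `H` such that three vertices `u, v, w` form an edge of `F` if and only if
`f u, f v, f w` form an edge of `H`. -/
noncomputable def indCopies {α : Type} [Fintype α] (F : Finset (Finset α)) {n : ℕ}
    (H : Finset (Finset (Fin n))) : ℕ :=
  ((univ : Finset (α → Fin n)).filter fun f => Function.Injective f ∧
    ∀ u v w : α, u ≠ v → u ≠ w → v ≠ w →
      (({u, v, w} : Finset α) ∈ F ↔ ({f u, f v, f w} : Finset (Fin n)) ∈ H)).card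

/-- The 3-graph `K(1,1,t)`: the vertices are `inl 0`, `inl 1` and the `inr j`, `j < t`; the edges are
the three-element sets which contain `inl 0` and `inl 1`. -/
noncomputable def pairStar (t : ℕ) : Finset (Finset (Fin 2 ⊕ Fin t)) :=
  univ.filter fun e => e.card = 3 ∧ Sum.inl 0 ∈ e ∧ Sum.inl 1 ∈ e

/-- Turán's construction: the triples that meet both `A` and its complement. -/
noncomputable def twoClass {n : ℕ} (A : Finset (Fin n)) : Finset (Finset (Fin n)) :=
  univ.filter fun e => e.card = 3 ∧ ¬ e ⊆ A ∧ ¬ e ⊆ Aᶜ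

/-- the three parts -/
def part {t : ℕ} : Fin 2 ⊕ Fin t → Fin PK.k
  | .inl 0 => (0 : Fin 3)
  | .inl 1 => (1 : Fin 3)
  | .inr _ => (2 : Fin 3)

theorem ne01 : (0 : Fin 3) ≠ 1 := by decide
theorem ne02 : (0 : Fin 3) ≠ 2 := by decide
theorem ne12 : (1 : Fin 3) ≠ 2 := by decide

theorem part0 {t : ℕ} (x : Fin 2 ⊕ Fin t) : (0 : Fin 3) = part x ↔ Sum.inl 0 = x := by
  constructor
  · intro h
    match x, h with
    | .inl 0, _ => rfl
    | .inl 1, h => exact absurd h ne01
    | .inr _, h => exact absurd h ne02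
  · rintro rfl
    rfl

theorem part1 {t : ℕ} (x : Fin 2 ⊕ Fin t) : (1 : Fin 3) = part x ↔ Sum.inl 1 = x := by
  constructor
  · intro h
    match x, h with
    | .inl 0, h => exact absurd h ne01.symm
    | .inl 1, _ => rfl
    | .inr _, h => exact absurd h ne12
  · rintro rfl
    rfl

theorem part2 {t : ℕ} {x y : Fin 2 ⊕ Fin t} (h : x ≠ y) (e : part x = part y) :
    part x = (2 : Fin 3) := by
  have h3 : ∀ p : Fin 3, p = 0 ∨ p = 1 ∨ p = 2 := by decide
  rcases h3 (part x) with h1 | h1 | h1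
  · exact absurd (((part0 x).mp h1.symm).symm.trans ((part0 y).mp (h1.symm.trans e))) h
  · exact absurd (((part1 x).mp h1.symm).symm.trans ((part1 y).mp (h1.symm.trans e))) h
  · exact h1

theorem card3 {α : Type} [DecidableEq α] {u v w : α} (h1 : u ≠ v) (h2 : u ≠ w) (h3 : v ≠ w) :
    ({u, v, w} : Finset α).card = 3 := by
  rw [card_insert_of_notMem, card_insert_of_notMem, card_singleton]
  · simpa using h3
  · simpa using ⟨h1, h2⟩

theorem all3 : ∀ a b c : Fin 3, (({a, b, c} : Finset (Fin 3)) ∈ ({univ} : Finset (Finset (Fin 3))) ↔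
    (0 = a ∨ 0 = b ∨ 0 = c) ∧ (1 = a ∨ 1 = b ∨ 1 = c) ∧ (2 = a ∨ 2 = b ∨ 2 = c)) := by
  decide +kernel

theorem all_card : ∀ t ∈ ({univ} : Finset (Finset (Fin PK.k))), t.card = 3 := by
  intro t ht
  rw [mem_singleton.mp ht]
  exact Finset.card_fin 3

theorem all_T : ∀ a b c : Fin PK.k, a < b → b < c → (a.val, b.val, c.val,
    if ({a, b, c} : Finset (Fin PK.k)) ∈ ({univ} : Finset (Finset (Fin PK.k))) then 1 else 0)
      ∈ PK.T := by
  intro a b c hab hbc
  have h1 : a.val < b.val := hab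
  have h2 : b.val < c.val := hbc
  have h3 : c.val < 3 := c.isLt
  have ha : a.val = 0 := by omega
  have hb : b.val = 1 := by omega
  have hc : c.val = 2 := by omega
  have hu : ({a, b, c} : Finset (Fin PK.k)) = univ := by
    ext x
    simp only [mem_insert, mem_singleton, mem_univ, iff_true]
    have hx : x.val < 3 := x.isLt
    rcases (show x.val = 0 ∨ x.val = 1 ∨ x.val = 2 by omega) with h | h | h
    · exact Or.inl (Fin.ext (h.trans ha.symm))
    · exact Or.inr (Or.inl (Fin.ext (h.trans hb.symm)))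
    · exact Or.inr (Or.inr (Fin.ext (h.trans hc.symm)))
  rw [if_pos (mem_singleton.mpr hu), ha, hb, hc]
  exact List.mem_singleton.mpr rfl

theorem all_R : ∀ a ∈ ({(2 : Fin 3)} : Finset (Fin PK.k)), ∀ b : Fin PK.k, b ≠ a →
    (a.val, b.val, 0) ∈ PK.R := by
  intro a ha b hb
  have h1 : a.val = 2 := congrArg Fin.val (mem_singleton.mp ha)
  have h2 : b.val ≠ 2 := fun h => hb (Fin.ext (h.trans h1.symm))
  have h3 : b.val < 3 := b.isLt
  rw [h1]
  rcases (show b.val = 0 ∨ b.val = 1 by omega) with h | h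
  · rw [h]
    exact List.mem_cons_self
  · rw [h]
    exact List.mem_cons_of_mem _ List.mem_cons_self

theorem mem_star {t : ℕ} {x y z : Fin 2 ⊕ Fin t} (hxy : x ≠ y) (hxz : x ≠ z) (hyz : y ≠ z) :
    ({x, y, z} : Finset (Fin 2 ⊕ Fin t)) ∈ pairStar t ↔
      (Sum.inl 0 = x ∨ Sum.inl 0 = y ∨ Sum.inl 0 = z) ∧
        (Sum.inl 1 = x ∨ Sum.inl 1 = y ∨ Sum.inl 1 = z) := by
  unfold pairStar
  rw [mem_filter]
  constructor
  · rintro ⟨-, -, h1, h2⟩
    exact ⟨by simpa only [mem_insert, mem_singleton] using h1,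
      by simpa only [mem_insert, mem_singleton] using h2⟩
  · rintro ⟨h1, h2⟩
    refine ⟨mem_univ _, ?_, ?_, ?_⟩
    · exact card3 hxy hxz hyz
    · simpa only [mem_insert, mem_singleton] using h1
    · simpa only [mem_insert, mem_singleton] using h2

theorem no_copy {t n : ℕ} (A : Finset (Fin n)) {f : Fin 2 ⊕ Fin t → Fin n} {c d : Fin t}
    (hcd : c ≠ d)
    (key : ∀ x y z : Fin 2 ⊕ Fin t, x ≠ y → x ≠ z → y ≠ z →
      (((Sum.inl 0 = x ∨ Sum.inl 0 = y ∨ Sum.inl 0 = z) ∧
          (Sum.inl 1 = x ∨ Sum.inl 1 = y ∨ Sum.inl 1 = z)) ↔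
        ¬ ((f x ∈ A ↔ f y ∈ A) ∧ (f x ∈ A ↔ f z ∈ A)))) : False := by
  have h01 : (Sum.inl 0 : Fin 2 ⊕ Fin t) ≠ Sum.inl 1 := fun h =>
    absurd (Sum.inl.inj h) (by decide)
  have hcd' : (Sum.inr c : Fin 2 ⊕ Fin t) ≠ Sum.inr d := fun h => hcd (Sum.inr.inj h)
  have h1 := (key (Sum.inl 0) (Sum.inl 1) (Sum.inr c) h01 Sum.inl_ne_inr Sum.inl_ne_inr).mp
    ⟨Or.inl rfl, Or.inr (Or.inl rfl)⟩
  have h2 : (f (Sum.inl 0) ∈ A ↔ f (Sum.inr c) ∈ A) ∧ (f (Sum.inl 0) ∈ A ↔ f (Sum.inr d) ∈ A) := by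
    by_contra hn
    rcases ((key (Sum.inl 0) (Sum.inr c) (Sum.inr d) Sum.inl_ne_inr Sum.inl_ne_inr hcd').mpr
      hn).2 with h | h | h
    · exact h01 h.symm
    · exact Sum.inl_ne_inr h
    · exact Sum.inl_ne_inr h
  have h3 : (f (Sum.inl 1) ∈ A ↔ f (Sum.inr c) ∈ A) ∧ (f (Sum.inl 1) ∈ A ↔ f (Sum.inr d) ∈ A) := by
    by_contra hn
    rcases ((key (Sum.inl 1) (Sum.inr c) (Sum.inr d) Sum.inl_ne_inr Sum.inl_ne_inr hcd').mpr
      hn).1 with h | h | h
    · exact h01 h
    · exact Sum.inl_ne_inr h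
    · exact Sum.inl_ne_inr h
  exact h1 ⟨h2.1.trans h3.1.symm, h2.1⟩


theorem star_part {t : ℕ} [inst : DecidableEq (Fin 2 ⊕ Fin t)] {u v w : Fin 2 ⊕ Fin t}
    (huv : u ≠ v) (huw : u ≠ w) (hvw : v ≠ w) :
    (({u, v, w} : Finset (Fin 2 ⊕ Fin t)) ∈ pairStar t ↔
      ({part u, part v, part w} : Finset (Fin PK.k)) ∈ ({univ} : Finset (Finset (Fin PK.k)))) := by
  refine Iff.trans ?_ (all3 (part u) (part v) (part w)).symm
  have h0 : (({u, v, w} : Finset (Fin 2 ⊕ Fin t)) ∈ pairStar t ↔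
      (Sum.inl 0 = u ∨ Sum.inl 0 = v ∨ Sum.inl 0 = w) ∧
        (Sum.inl 1 = u ∨ Sum.inl 1 = v ∨ Sum.inl 1 = w)) := by
    have e := mem_star huv huw hvw
    rw [← e]
    refine Iff.of_eq (congrArg (· ∈ pairStar t) ?_)
    ext q
    simp only [mem_insert, mem_singleton]
  rw [h0]
  have k0 := and_congr (or_congr (part0 u) (or_congr (part0 v) (part0 w)))
    (or_congr (part1 u) (or_congr (part1 v) (part1 w)))
  rw [← k0]
  constructor
  · rintro ⟨h1, h2⟩
    refine ⟨h1, h2, ?_⟩
    by_contra hcon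
    rw [not_or, not_or] at hcon
    have h3 : ∀ p : Fin 3, ¬ 2 = p → 0 = p ∨ 1 = p := by decide
    have k1 : ∀ x : Fin 2 ⊕ Fin t, ¬ (2 : Fin 3) = part x → Sum.inl 0 = x ∨ Sum.inl 1 = x :=
      fun x hx => (h3 _ hx).imp (part0 x).mp (part1 x).mp
    rcases k1 u hcon.1 with hu | hu <;> rcases k1 v hcon.2.1 with hv | hv <;>
      rcases k1 w hcon.2.2 with hw | hw <;> first
        | exact huv (hu.symm.trans hv)
        | exact huw (hu.symm.trans hw)
        | exact hvw (hv.symm.trans hw)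
  · rintro ⟨h1, h2, -⟩
    exact ⟨h1, h2⟩

theorem density (t : ℕ) {ε : ℝ} (hε : 0 < ε) : ∃ δ : ℝ, 0 < δ ∧ ∃ n0 : ℕ, ∀ n, n0 ≤ n →
      ∀ H : Finset (Finset (Fin n)), (∀ e ∈ H, e.card = 3) → K53Free H →
      (indCopies (pairStar t) H : ℝ) ≤ δ * (n : ℝ) ^ (t + 2) →
        (H.card : ℝ) ≤ (3 / 4 + ε) * (n.choose 3 : ℝ) := by
  have hcard : Fintype.card (Fin 2 ⊕ Fin t) = t + 2 := by
    rw [Fintype.card_sum, Fintype.card_fin, Fintype.card_fin, Nat.add_comm]
  have h := ind_main5 certUA PK okK (F := pairStar t)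
    (A := ({univ} : Finset (Finset (Fin PK.k))))
    (X := ({(2 : Fin 3)} : Finset (Fin PK.k))) (Nat.succ_pos 2) all_card all_T all_R
    part (fun u v huv e => mem_singleton.mpr (part2 huv e))
    (fun u v w a b c =>
      star_part (inst := fun x y => Classical.propDecidable (x = y)) a b c) hε
  rw [hcard] at h
  exact h

theorem indCopies_zero {α : Type} [Fintype α] (F : Finset (Finset α)) {n : ℕ}
    (H : Finset (Finset (Fin n)))
    (hno : ∀ f : α → Fin n, Function.Injective f → (∀ u v w : α, u ≠ v → u ≠ w → v ≠ w →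
      (({u, v, w} : Finset α) ∈ F ↔ ({f u, f v, f w} : Finset (Fin n)) ∈ H)) → False) :
    indCopies F H = 0 :=
  Finset.card_eq_zero.mpr (Finset.eq_empty_of_forall_notMem fun f hf =>
    hno f (mem_filter.mp hf).2.1 (mem_filter.mp hf).2.2)

theorem no_copies {n t : ℕ} (A : Finset (Fin n)) (ht : 2 ≤ t) :
    indCopies (pairStar t) (twoClass A) = 0 := by
  refine indCopies_zero _ _ fun f hf h => ?_
  refine no_copy A (c := ⟨0, by omega⟩) (d := ⟨1, by omega⟩) (by simp) (f := f) ?_
  intro x y z hxy hxz hyz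
  rw [← mem_star hxy hxz hyz]
  have h1 := h x y z hxy hxz hyz
  have h2 := Pool.Agent.Results.MP_a4d830_co.FiveCliqueInfiniteLinks.mem_two (A := A)
    (hf.ne hxy) (hf.ne hxz) (hf.ne hyz)
  refine Iff.trans ?_ (h1.trans h2)
  refine Iff.of_eq (congrArg (· ∈ pairStar t) ?_)
  ext q
  simp only [mem_insert, mem_singleton]

/-- For every `t` and `ε > 0` there are `δ > 0` and `n0` such that every `K_5^3`-free 3-graph `H` on
`n ≥ n0` vertices with at most `δ n^(t+2)` labelled induced copies of `K(1,1,t)` has at most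
`(3/4 + ε) C(n,3)` edges. Turán's construction is `K_5^3`-free, has no induced copies of `K(1,1,t)`
for `t ≥ 2`, and has at least `(3/4) C(n,3)` edges for a suitable division of the vertices. -/
theorem result :
    (∀ t : ℕ, ∀ ε : ℝ, 0 < ε → ∃ δ : ℝ, 0 < δ ∧ ∃ n0 : ℕ, ∀ n, n0 ≤ n →
      ∀ H : Finset (Finset (Fin n)), (∀ e ∈ H, e.card = 3) → K53Free H →
      (indCopies (pairStar t) H : ℝ) ≤ δ * (n : ℝ) ^ (t + 2) →
        (H.card : ℝ) ≤ (3 / 4 + ε) * (n.choose 3 : ℝ)) ∧
    (∀ (n : ℕ) (A : Finset (Fin n)), K53Free (twoClass A) ∧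
      ∀ t : ℕ, 2 ≤ t → indCopies (pairStar t) (twoClass A) = 0) ∧
    (∀ n : ℕ, ∃ A : Finset (Fin n), 3 * n.choose 3 ≤ 4 * (twoClass A).card) := by
  refine ⟨fun t ε hε => ?_, fun n A => ⟨?_, fun t ht => ?_⟩, ?_⟩
  · exact density t hε
  · exact Pool.Agent.Results.MP_a4d830_co.FiveCliqueInfiniteLinks.twoClass_free A
  · exact no_copies A ht
  · exact Pool.Agent.Results.MP_a4d830_co.FiveCliqueInfiniteLinks.twoClass_card

end Pool.Agent.Results.MP_a4d830_co.FiveCliquePairStar
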