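import Pool.Agent.V11262.TD.Norm
import Pool.Agent.V11262.TD.Two
import Pool.Agent.V11262.TD.Five

/-!
# Large codegrees in `K_k^(s+1)`-free hypergraphs

`codegree H U` is the number of the vertices `v` such that `U ∪ {v}` is an edge of `H`.
A set `K` of vertices is a Turán system of a family `G` of `s`-sets (`Sys s G K`) if every
`(s+1)`-subset of `K` contains a member of `G`; `ex s k n` is the largest number of `s`-sets on
`n` vertices such that no set of `k` vertices is a Turán system, and `L s k` is the corresponding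
Turán density.

We show that `L s k` is the largest asymptotic proportion of the `s`-sets whose codegree is at
least `(1 - ε) n` (`ε → 0`) in a `K_k^(s+1)`-free `(s+1)`-graph, and the limit, as `p → ∞`, of the
`ℓ_p`-norm version of `π(K_k^(s+1))` (the `p`-th powers of the codegrees of the `s`-sets are
added); for `p = 1` this is `π(K_k^(s+1))` itself. We compute `L 2 k` for all `k` and `L 3 5`.

The consequence for `π` itself: a bound for the number of the edges in terms of the number of
the codegrees between `c n` and `(1 - ε) n`. If there are none of these for `c = 0.598`, a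
`K_5^4`-free 4-graph has density at most `11/16`, the value conjectured for `π(K_5^4)`. (For the
complete 3-graphs of odd order, `s = 2` and odd `k`, a sharper inequality of this kind is known:
`MP_330434_co.OddCliquesCodegreeGap`.)

Outline. Let `G` be the family of the `s`-sets of large codegree. A set `K` of `k` vertices all
of whose `(s+1)`-subsets contain a member of `G` has a non-edge containing a member of `G`, so
there are at most `O(ε n^k)` of them, and averaging over the sets of `m` vertices gives the upper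
bound; all `(s+1)`-sets which contain a member of an extremal family give the lower bound.
`L 2 k` follows from Turán's theorem for graphs. For `L 3 5 ≤ 2/9`: a family without
Turán systems on five vertices contains no three triples `xyz`, `x'yz`, `xx'u` with `u` different
from `y`, `z`, hence only `O(n³)` sets of four vertices contain three triples, and up to these the
family is cancellative; the Lagrangian of a cancellative family is at most `1/27`.
-/

set_option autoImplicit false
open Finset Filter Topology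
open scoped Classical

namespace Pool.Agent.Results.MP_a4d830_co.LargeCodegrees

open Pool.Agent.V11262.TD

theorem result :
    -- (1) the largest proportion of the `s`-sets of large codegree
    (∀ s k : ℕ, s + 1 ≤ k →
      Tendsto (fun n : ℕ => (ex s k n : ℝ) / n.choose s) atTop (𝓝 (L s k)) ∧
      (∀ δ : ℝ, 0 < δ → ∃ ε : ℝ, 0 < ε ∧ ε < 1 ∧ ∃ N : ℕ, ∀ n : ℕ, N ≤ n →
        ∀ H : Finset (Finset (Fin n)), CliqueFree (s + 1) k H →
          ((univ.filter fun U : Finset (Fin n) => U.card = s ∧
            (1 - ε) * (n : ℝ) ≤ (codegree H U : ℝ)).card : ℝ) ≤ (L s k + δ) * n.choose s) ∧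
      (∀ n : ℕ, k ≤ n → ∃ H : Finset (Finset (Fin n)), CliqueFree (s + 1) k H ∧
        L s k * n.choose s ≤
          ((univ.filter fun U : Finset (Fin n) => U.card = s ∧ n - s ≤ codegree H U).card : ℝ))) ∧
    -- (2) the `ℓ_p`-norms
    (∀ s k : ℕ, s + 1 ≤ k → ∀ δ : ℝ, 0 < δ → ∃ p₀ : ℝ, 0 < p₀ ∧ ∀ p : ℝ, p₀ ≤ p →
      ∃ N : ℕ, ∀ n : ℕ, N ≤ n →
        (∀ H : Finset (Finset (Fin n)), CliqueFree (s + 1) k H →
          ∑ U ∈ powersetCard s (univ : Finset (Fin n)), ((codegree H U : ℝ) / n) ^ p ≤
            (L s k + δ) * n.choose s) ∧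
        ∃ H : Finset (Finset (Fin n)), CliqueFree (s + 1) k H ∧
          (L s k - δ) * n.choose s ≤
            ∑ U ∈ powersetCard s (univ : Finset (Fin n)), ((codegree H U : ℝ) / n) ^ p) ∧
    -- (3) the number of edges and the codegrees between `c n` and `(1 - ε) n`
    (∀ s k : ℕ, s + 1 ≤ k → ∀ c : ℝ, 0 ≤ c → c ≤ 1 → ∀ δ : ℝ, 0 < δ →
      ∃ ε : ℝ, 0 < ε ∧ ε < 1 ∧ ∃ N : ℕ, ∀ n : ℕ, N ≤ n → ∀ H : Finset (Finset (Fin n)),
        CliqueFree (s + 1) k H →
          (H.card : ℝ) / n.choose (s + 1) ≤
            L s k + (1 - L s k) * c + (1 - c) * ((gap s c ε H).card / n.choose s) + δ) ∧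
    -- (4) values
    (∀ k : ℕ, 3 ≤ k → L 2 k = 1 - 1 / (((k - 1) / 2 : ℕ) : ℝ)) ∧
    L 3 5 = 2 / 9 ∧
    -- (5) the complete 4-graph with five vertices
    (∃ ε : ℝ, 0 < ε ∧ ε < 1 ∧ ∃ N : ℕ, ∀ n : ℕ, N ≤ n → ∀ H : Finset (Finset (Fin n)),
      CliqueFree 4 5 H → gap 3 0.598 ε H = ∅ → (H.card : ℝ) ≤ 11 / 16 * n.choose 4) := by
  refine ⟨fun s k hsk => ⟨L_lim hsk, fun δ hδ => heavy_upper hsk hδ, fun n hn => ?_⟩,
    fun s k hsk δ hδ => ?_, fun s k hsk c hc0 hc1 δ hδ => gap_upper hsk hc0 hc1 hδ,
    fun k hk => L_two hk, L_three_five, ?_⟩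
  · obtain ⟨H, hH, G, hG, hGc⟩ := heavy_lower (s := s) (k := k) (n := n) hsk
    refine ⟨H, hH, ?_⟩
    have p2 : (0:ℝ) < n.choose s := by exact_mod_cast Nat.choose_pos (show s ≤ n by omega)
    have h1 := L_le (s := s) hn
    rw [le_div_iff₀ p2, ← hGc] at h1
    refine h1.trans ?_
    have h2 : G ⊆ univ.filter fun U : Finset (Fin n) => U.card = s ∧ n - s ≤ codegree H U :=
      fun U hU => mem_filter.mpr ⟨mem_univ _, hG U hU⟩
    exact_mod_cast card_le_card h2
  · obtain ⟨p₀, hp₀, N, hN⟩ := power_upper hsk hδ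
    refine ⟨p₀, hp₀, fun p hp => ?_⟩
    obtain ⟨N', hN'⟩ := power_lower hsk hδ p (lt_of_lt_of_le hp₀ hp)
    exact ⟨max N N', fun n hn => ⟨fun H hH => hN p hp n ((le_max_left _ _).trans hn) H hH,
      hN' n ((le_max_right _ _).trans hn)⟩⟩
  · obtain ⟨ε, h1, h2, N, hN⟩ := gap_upper (s := 3) (k := 5) (c := 0.598) (δ := 0.0001)
      (by norm_num) (by norm_num) (by norm_num) (by norm_num)
    refine ⟨ε, h1, h2, max N 4, fun n hn H hH hg => ?_⟩
    have h3 := hN n ((le_max_left _ _).trans hn) H hH
    have p3 : (0:ℝ) < n.choose 4 := by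
      exact_mod_cast Nat.choose_pos ((le_max_right _ _).trans hn)
    rw [hg, L_three_five, card_empty] at h3
    have h4 : (H.card : ℝ) / n.choose (3 + 1) ≤ 11 / 16 := by
      refine h3.trans ?_
      norm_num
    rwa [div_le_iff₀ p3] at h4

end Pool.Agent.Results.MP_a4d830_co.LargeCodegrees
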