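import Pool.Agent.V11328.PG.Main

/-!
# Complete hypergraphs `K_{r+1}^r` and hypergraphs preserved by many involutions

Let `F` be an `r`-graph with an edge in every `r + 1` points (the complement of a
`K_{r+1}^r`-free `r`-graph) which is preserved by the involutions in `T`. If `S` is a set of `r + 1`
points which consists of pairs exchanged by `τ ∈ T` (and of one fixed point, if `r` is even), then
`F` contains the set of the exchanged pairs, or both sets `S.erase x` and `S.erase (τ x)` for a
point `x` of one of the pairs. Counting these sets gives lower bounds for `F`. For the projective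
line over a field with `q` elements and `PGL(2, q)` they give that a `K_6^5`-free 5-graph has
density at most `2/3 + o(1)` and, if `q` is even, that a `K_5^4`-free 4-graph has density at most
`2/3`; in general `K_5^4`-free 4-graphs, and so `K_6^5`-free 5-graphs, of density
`11/16 + o(1) > 2/3` exist (Giraud).
-/

set_option autoImplicit false

open Finset OnePoint

namespace Pool.Agent.Results.MP_a4d830_co.ProjectiveLine

/-- `F` is an `r`-graph and every `r + 1` points contain an edge. -/
def Covering {V : Type} (r : ℕ) (F : Finset (Finset V)) : Prop :=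
  (∀ e ∈ F, e.card = r) ∧ ∀ S : Finset V, S.card = r + 1 → ∃ e ∈ F, e ⊆ S

/-- `H` is an `r`-graph without `K_{r+1}^r`: no `r + 1` points have all their `r`-subsets in `H`. -/
def Free {V : Type} (r : ℕ) (H : Finset (Finset V)) : Prop :=
  (∀ e ∈ H, e.card = r) ∧ ∀ S : Finset V, S.card = r + 1 → ∃ e ⊆ S, e.card = r ∧ e ∉ H

/-- `H`, a family of sets of points of the projective line over `K`, is invariant under all Möbius
transformations. -/
def Invariant {K : Type} [Field K] [DecidableEq K] (H : Finset (Finset (OnePoint K))) : Prop :=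
  ∀ g : GL (Fin 2) K, ∀ e ∈ H, ∃ e' ∈ H, ∀ x, x ∈ e' ↔ ∃ y ∈ e, g • y = x

theorem compl_covering {V : Type} [Fintype V] [DecidableEq V] {r : ℕ} {H : Finset (Finset V)}
    (h : Free r H) : (∀ e ∈ (univ : Finset V).powersetCard r \ H, e.card = r) ∧
      ∀ S : Finset V, S.card = r + 1 → ∃ e ∈ (univ : Finset V).powersetCard r \ H, e ⊆ S := by
  refine ⟨fun e he => (mem_powersetCard.1 (mem_sdiff.1 he).1).2, fun S hS => ?_⟩
  obtain ⟨e, h1, h2, h3⟩ := h.2 S hS
  exact ⟨e, mem_sdiff.2 ⟨mem_powersetCard.2 ⟨subset_univ _, h2⟩, h3⟩, h1⟩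

theorem compl_card {V : Type} [Fintype V] [DecidableEq V] {r : ℕ} {H : Finset (Finset V)}
    (h : Free r H) : ((univ : Finset V).powersetCard r \ H).card + H.card =
      (Fintype.card V).choose r := by
  rw [card_sdiff_add_card_eq_card, card_powersetCard, card_univ]
  intro e he
  exact mem_powersetCard.2 ⟨subset_univ _, h.1 e he⟩

theorem compl_inv {K : Type} [Field K] [DecidableEq K] [Fintype K] [DecidableEq (OnePoint K)]
    {r : ℕ} {H : Finset (Finset (OnePoint K))} (hi : Invariant H) :
    ∀ g : GL (Fin 2) K, ∀ e ∈ (univ : Finset (OnePoint K)).powersetCard r \ H,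
      e.image (fun x => g • x) ∈ (univ : Finset (OnePoint K)).powersetCard r \ H := by
  intro g e he
  rw [mem_sdiff, mem_powersetCard] at he ⊢
  refine ⟨⟨subset_univ _, ?_⟩, fun h => he.2 ?_⟩
  · rw [card_image_of_injective _ (MulAction.injective g)]
    exact he.1.2
  · obtain ⟨e', he', hx⟩ := hi g⁻¹ _ h
    have : e' = e := by
      ext x
      rw [hx]
      constructor
      · rintro ⟨y, hy, rfl⟩
        obtain ⟨z, hz, rfl⟩ := mem_image.1 hy
        rw [inv_smul_smul]
        exact hz
      · intro h
        exact ⟨g • x, mem_image_of_mem _ h, inv_smul_smul g x⟩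
    rw [← this]
    exact he'

/-- (1) The general inequality for odd uniformity `2 k + 1`. (2) The general inequality for even
uniformity `2 k + 2`. (3) If the involutions of a family have no fixed points and exchange any `k`
disjoint pairs equally often, then a `K_{2k+2}^{2k+1}`-free hypergraph preserved by them has density
at most `1 - 1 / (k + 1)`. (4) A `K_6^5`-free 5-graph on the projective line over a field with
`q ≥ 5` elements which is invariant under `PGL(2, q)` has density at most
`(2 q - 4) / (3 (q - 3)) = 2/3 + O(1/q)`. (5) For even `q` a `K_5^4`-free 4-graph on the projective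
line which is invariant under `PGL(2, q)` has density at most `2/3`. -/
theorem result :
    (∀ (V : Type) [Fintype V] [DecidableEq V] (k l : ℕ) (F : Finset (Finset V)),
      Covering (2 * k + 1) F → ∀ T : Finset (Equiv.Perm V), (∀ τ ∈ T, ∀ y, τ (τ y) = y) →
      (∀ τ ∈ T, ∀ e ∈ F, e.image τ ∈ F) →
      (∀ y : Fin k × Bool → V, Function.Injective y →
        {τ | τ ∈ T ∧ ∀ j, τ (y (j, false)) = y (j, true)}.ncard ≤ l) →
      ∑ τ ∈ T, ∏ j ∈ range (k + 1), (τ.support.card - 2 * j) ≤
        (k + 1) * (l * ((2 * k + 1).factorial * F.card))) ∧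
    (∀ (V : Type) [Fintype V] [DecidableEq V] (k l m : ℕ) (F : Finset (Finset V)),
      Covering (2 * k + 2) F → ∀ T : Finset (Equiv.Perm V), (∀ τ ∈ T, ∀ y, τ (τ y) = y) →
      (∀ τ ∈ T, ∀ e ∈ F, e.image τ ∈ F) →
      (∀ y : Fin (k + 1) × Bool → V, Function.Injective y →
        {q : Equiv.Perm V × V | q.1 ∈ T ∧ q.1 q.2 = q.2 ∧
          ∀ j, q.1 (y (j, false)) = y (j, true)}.ncard ≤ m) →
      (∀ z : Option (Fin k × Bool) → V, Function.Injective z →
        {τ | τ ∈ T ∧ τ (z none) = z none ∧
          ∀ j, τ (z (Option.some (j, false))) = z (Option.some (j, true))}.ncard ≤ l) →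
      ∑ τ ∈ T, (univ.filter fun p => τ p = p).card *
        ∏ j ∈ range (k + 1), (τ.support.card - 2 * j) ≤
          (m + (k + 1) * l) * ((2 * k + 2).factorial * F.card)) ∧
    (∀ (V : Type) [Fintype V] [DecidableEq V] (k l : ℕ) (H : Finset (Finset V)),
      Free (2 * k + 1) H → ∀ T : Finset (Equiv.Perm V), (∀ τ ∈ T, ∀ y, τ (τ y) = y ∧ τ y ≠ y) →
      (∀ τ ∈ T, ∀ e ∈ H, e.image τ ∈ H) → 0 < l →
      (∀ y : Fin k × Bool → V, Function.Injective y →
        {τ | τ ∈ T ∧ ∀ j, τ (y (j, false)) = y (j, true)}.ncard = l) →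
      (k + 1) * H.card ≤ k * (Fintype.card V).choose (2 * k + 1)) ∧
    (∀ (K : Type) [Field K] [DecidableEq K] [Fintype K] (H : Finset (Finset (OnePoint K))),
      Free 5 H → Invariant H → 5 ≤ Fintype.card K →
      3 * (Fintype.card K - 3) * H.card ≤
        (2 * Fintype.card K - 4) * (Fintype.card K + 1).choose 5) ∧
    (∀ (K : Type) [Field K] [DecidableEq K] [Fintype K] [CharP K 2]
      (H : Finset (Finset (OnePoint K))), Free 4 H → Invariant H →
      3 * H.card ≤ 2 * (Fintype.card K + 1).choose 4) := by
  refine ⟨?_, ?_, ?_, ?_, ?_⟩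
  · intro V _ _ k l F hF T hT hinv hl
    classical
    refine V11328.PG.odd_bound F hF.1 hF.2 T hT hinv fun y hy => ?_
    rw [← Set.ncard_coe_finset]
    refine le_of_eq_of_le ?_ (hl y hy)
    congr 1
    ext τ
    simp [V11328.PG.Swaps]
  · intro V _ _ k l m F hF T hT hinv hm hl
    classical
    refine V11328.PG.even_bound F hF.1 hF.2 T hT hinv (fun y hy => ?_) fun z hz => ?_
    · refine le_trans (le_of_eq ?_) (hm y hy)
      rw [← card_sigma, ← Set.ncard_coe_finset]
      refine Set.ncard_congr (fun q _ => (q.1, q.2)) ?_ ?_ ?_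
      · rintro ⟨τ, p⟩ hq
        simp only [coe_sigma, Set.mem_sigma_iff, mem_coe, mem_filter, V11328.PG.fixd] at hq
        exact ⟨hq.1.1, hq.2.2, hq.1.2⟩
      · rintro ⟨τ, p⟩ ⟨τ', p'⟩ _ _ h
        simp only [Prod.mk.injEq] at h
        obtain ⟨rfl, rfl⟩ := h
        rfl
      · rintro ⟨τ, p⟩ ⟨h1, h2, h3⟩
        refine ⟨⟨τ, p⟩, ?_, rfl⟩
        simp only [coe_sigma, Set.mem_sigma_iff, mem_coe, mem_filter, V11328.PG.fixd]
        exact ⟨⟨h1, h3⟩, mem_univ _, h2⟩
    · rw [← Set.ncard_coe_finset]
      refine le_of_eq_of_le ?_ (hl z hz)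
      congr 1
      ext τ
      simp [V11328.PG.Swaps]
  · intro V _ _ k l H hH T hT hinv hl0 hl
    have hc := compl_covering hH
    have h := V11328.PG.uniform _ hc.1 hc.2 T hT (fun τ hτ e he => ?_) hl0 hl
    · have := compl_card hH
      have h2 : (k + 1) * (Fintype.card V).choose (2 * k + 1) =
          (k + 1) * ((univ : Finset V).powersetCard (2 * k + 1) \ H).card + (k + 1) * H.card := by
        rw [← this]
        ring
      have h3 : (k + 1) * (Fintype.card V).choose (2 * k + 1) =
          k * (Fintype.card V).choose (2 * k + 1) + (Fintype.card V).choose (2 * k + 1) := by ring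
      omega
    · rw [mem_sdiff, mem_powersetCard] at he ⊢
      refine ⟨⟨subset_univ _, ?_⟩, fun h => he.2 ?_⟩
      · rw [card_image_of_injective _ τ.injective]
        exact he.1.2
      · have := hinv τ hτ _ h
        rw [image_image] at this
        have h2 : (τ ∘ τ : V → V) = id := funext fun y => (hT τ hτ y).1
        rwa [h2, image_id] at this
  · intro K _ _ _ H hH hi hq
    let _ : DecidableEq (OnePoint K) := Classical.decEq _
    have hc := compl_covering hH
    have h := V11328.PG.five _ hc.1 hc.2 (compl_inv hi)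
    have hcard : Fintype.card (OnePoint K) = Fintype.card K + 1 := Fintype.card_option
    have h1 := compl_card hH
    rw [hcard] at h h1
    set A := ((univ : Finset (OnePoint K)).powersetCard 5 \ H).card
    set C := (Fintype.card K + 1).choose 5 with hC
    obtain ⟨t, ht⟩ : ∃ t, Fintype.card K = t + 5 := ⟨Fintype.card K - 5, by omega⟩
    have h2 : (t + 2) * (Fintype.card K + 1).descFactorial 4 = 120 * C := by
      have e := Nat.descFactorial_eq_factorial_mul_choose (Fintype.card K + 1) 5
      rw [Nat.descFactorial_succ] at e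
      have e5 : (5).factorial = 120 := rfl
      rw [e5, ← hC] at e
      rw [← e]
      congr 1
      omega
    have e1 : Fintype.card K + 1 - 6 = t := by omega
    have e2 : Fintype.card K - 3 = t + 2 := by omega
    have e3 : 2 * Fintype.card K - 4 = 2 * t + 6 := by omega
    rw [e1] at h
    rw [e2, e3]
    have h3 : t * C ≤ 3 * (t + 2) * A := by
      have : 120 * (t * C) ≤ 120 * (3 * (t + 2) * A) := by
        calc 120 * (t * C) = t * (120 * C) := by ring
          _ = (t + 2) * ((Fintype.card K + 1).descFactorial 4 * t) := by rw [← h2]; ring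
          _ ≤ (t + 2) * (360 * A) := Nat.mul_le_mul_left _ h
          _ = _ := by ring
      exact Nat.le_of_mul_le_mul_left this (by norm_num)
    have h4 : 3 * (t + 2) * A + 3 * (t + 2) * H.card = 3 * (t + 2) * C := by
      rw [← h1]
      ring
    have h5 : 3 * (t + 2) * C = t * C + (2 * t + 6) * C := by ring
    omega
  · intro K _ _ _ _ H hH hi
    let _ : DecidableEq (OnePoint K) := Classical.decEq _
    have hc := compl_covering hH
    have h := V11328.PG.four _ hc.1 hc.2 (compl_inv hi)
    have hcard : Fintype.card (OnePoint K) = Fintype.card K + 1 := Fintype.card_option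
    have h1 := compl_card hH
    rw [hcard] at h h1
    rw [Nat.descFactorial_eq_factorial_mul_choose] at h
    have e4 : (4).factorial = 24 := rfl
    rw [e4] at h
    omega

end Pool.Agent.Results.MP_a4d830_co.ProjectiveLine
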