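import Pool.Agent.H279R2.Tur.Final
import Pool.Agent.TH440.DC.Main

/-!
# `1 - π(K_k^r)` for all pairs `k > r ≥ 3`, up to an explicit factor of order `μ log μ`,
`μ = min (r, k - r)`

The notions are those of `Pool.Agent.H120R2.CliqueDefs`: `ex n r k = ex(n, K_k^r)` and
`turanDensity r k = π(K_k^r)`.

De Caen's theorem says that `C(k-1, r-1) (1 - π(K_k^r)) ≥ 1`. We show that this number is at most
`600 μ log (μ + 1)`, `μ = min (r, k - r)`, for *all* `k > r ≥ 1`, and that
`C(k, r) (1 - π(K_k^r)) ≤ 100 (k - r) log (k - r + 1)`; both are consequences of explicit bounds for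
all `n`. No relation between `r` and `k` is supposed, and there are no unspecified constants. The
lower bound is taken from `Pool.Agent.TH440.DC` (a slight improvement of de Caen's bound).

Outline of the upper bounds (`Pool.Agent.H279R2.Tur`).  Let `R = k - r`.  For `r < 256 R³` the
vertices are mapped at random to `k⁴` classes, and greedily chosen families on the classes (one for
every set of classes met more than once) give `5 + 6 R log k`.  For larger `r` one takes a random
part `V₀` of the vertices and a random colouring of the sets outside `V₀`: an `r`-set is chosen if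
its part outside `V₀` has the colour `0`, or if its part in `V₀` is a member of the family for
smaller `r`, or in exceptional cases of small probability; the induction on `r` closes with the
constant `100 R log (R + 1)`.  For `k` large compared with `r²` a disjoint union of such families
gives `600 r log (r + 1)`.
-/

set_option autoImplicit false

namespace Pool.Agent.Results.MP_a4d830_co.TwoSidedAllPairs

open Pool.Agent.H120R2.Clique Filter Topology Finset

lemma of_cov {n r k : ℕ} {F : Finset (Finset (Fin n))} (hF : Pool.Agent.H279R2.Tur.Cov univ k r F) :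
    (n.choose r : ℝ) ≤ (ex n r k : ℝ) + F.card := by
  have h := ex_ge_of_cover (k := r) (m := k) F (fun A hA => by
    obtain ⟨B, hB, hBA⟩ := hF.2 A (subset_univ _) hA
    exact ⟨B, hB, (hF.1 B hB).2, hBA⟩)
  exact_mod_cast h

theorem fin_two (n r k : ℕ) (hr : 1 ≤ r) (hk : r < k) :
    (n.choose r : ℝ) - 600 * (min r (k - r) : ℕ) * Real.log ((min r (k - r) : ℕ) + 1) /
      ((k - 1).choose (r - 1) : ℝ) * (n.choose r : ℝ) ≤ (ex n r k : ℝ) := by
  obtain ⟨F, hF, hc⟩ := Pool.Agent.H279R2.Tur.bound_two n k r hr hk univ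
  have h1 := of_cov hF
  have hpos : (0 : ℝ) < ((k - 1).choose (r - 1) : ℝ) := by
    exact_mod_cast Nat.choose_pos (by omega)
  rw [Finset.card_univ, Fintype.card_fin] at hc
  have h2 : (F.card : ℝ) ≤ 600 * (min r (k - r) : ℕ) * Real.log ((min r (k - r) : ℕ) + 1) /
      ((k - 1).choose (r - 1) : ℝ) * (n.choose r : ℝ) := by
    rw [div_mul_eq_mul_div, le_div_iff₀ hpos]
    exact hc
  linarith

theorem fin_one (n r k : ℕ) (hk : r < k) :
    (n.choose r : ℝ) - 100 * (k - r : ℕ) * Real.log ((k - r : ℕ) + 1) /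
      (k.choose r : ℝ) * (n.choose r : ℝ) ≤ (ex n r k : ℝ) := by
  obtain ⟨F, hF, hc⟩ := Pool.Agent.H279R2.Tur.bound_one n k r hk univ
  have h1 := of_cov hF
  have hpos : (0 : ℝ) < (k.choose r : ℝ) := by
    exact_mod_cast Nat.choose_pos (by omega)
  rw [Finset.card_univ, Fintype.card_fin] at hc
  unfold Pool.Agent.H279R2.Tur.muR at hc
  have h2 : (F.card : ℝ) ≤ 100 * (k - r : ℕ) * Real.log ((k - r : ℕ) + 1) /
      (k.choose r : ℝ) * (n.choose r : ℝ) := by
    rw [div_mul_eq_mul_div, le_div_iff₀ hpos]
    exact hc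
  linarith

/-- **The Turán densities of all complete hypergraphs up to an explicit factor.** -/
theorem result :
    (∀ r k : ℕ, 3 ≤ r → r < k →
      Tendsto (fun n : ℕ => (ex n r k : ℝ) / (n.choose r : ℝ)) atTop (𝓝 (turanDensity r k)) ∧
      1 + (1 / ((k - 1).choose (r - 1) : ℝ)) ^ 2 / 40 ≤
        ((k - 1).choose (r - 1) : ℝ) * (1 - turanDensity r k) ∧
      ((k - 1).choose (r - 1) : ℝ) * (1 - turanDensity r k) ≤
        600 * (min r (k - r) : ℕ) * Real.log ((min r (k - r) : ℕ) + 1) ∧
      (k.choose r : ℝ) * (1 - turanDensity r k) ≤ 100 * (k - r : ℕ) * Real.log ((k - r : ℕ) + 1)) ∧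
    (∀ n r k : ℕ, 1 ≤ r → r < k →
      (n.choose r : ℝ) - 600 * (min r (k - r) : ℕ) * Real.log ((min r (k - r) : ℕ) + 1) /
        ((k - 1).choose (r - 1) : ℝ) * (n.choose r : ℝ) ≤ (ex n r k : ℝ)) ∧
    (∀ n r k : ℕ, 1 ≤ r → r < k →
      (n.choose r : ℝ) - 100 * (k - r : ℕ) * Real.log ((k - r : ℕ) + 1) /
        (k.choose r : ℝ) * (n.choose r : ℝ) ≤ (ex n r k : ℝ)) := by
  refine ⟨fun r k hr hk => ⟨ratio_tendsto r k, ?_, ?_, ?_⟩,
    fun n r k hr hk => fin_two n r k hr hk, fun n r k _ hk => fin_one n r k hk⟩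
  · have h := (Pool.Agent.TH440.DC.main hr hk).1
    have hpos : (0 : ℝ) < ((k - 1).choose (r - 1) : ℝ) := by
      exact_mod_cast Nat.choose_pos (by omega)
    unfold Pool.Agent.TH440.DC.DD at h
    have h2 : (1 / ((k - 1).choose (r - 1) : ℝ)) + (1 / ((k - 1).choose (r - 1) : ℝ)) ^ 3 / 40 ≤
        1 - turanDensity r k := by linarith
    have h3 := mul_le_mul_of_nonneg_left h2 hpos.le
    refine le_trans (le_of_eq ?_) h3
    field_simp
  · have hpos : (0 : ℝ) < ((k - 1).choose (r - 1) : ℝ) := by
      exact_mod_cast Nat.choose_pos (by omega)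
    have h := le_density (k := r) (m := k)
      (x := 1 - 600 * (min r (k - r) : ℕ) * Real.log ((min r (k - r) : ℕ) + 1) /
        ((k - 1).choose (r - 1) : ℝ)) (fun n => by
          rw [sub_mul, one_mul]
          exact fin_two n r k (by omega) hk)
    have h2 : 1 - turanDensity r k ≤
        600 * (min r (k - r) : ℕ) * Real.log ((min r (k - r) : ℕ) + 1) /
        ((k - 1).choose (r - 1) : ℝ) := by linarith
    rw [le_div_iff₀ hpos] at h2
    linarith
  · have hpos : (0 : ℝ) < (k.choose r : ℝ) := by
      exact_mod_cast Nat.choose_pos (by omega)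
    have h := le_density (k := r) (m := k)
      (x := 1 - 100 * (k - r : ℕ) * Real.log ((k - r : ℕ) + 1) / (k.choose r : ℝ)) (fun n => by
          rw [sub_mul, one_mul]
          exact fin_one n r k hk)
    have h2 : 1 - turanDensity r k ≤
        100 * (k - r : ℕ) * Real.log ((k - r : ℕ) + 1) / (k.choose r : ℝ) := by linarith
    rw [le_div_iff₀ hpos] at h2
    linarith

end Pool.Agent.Results.MP_a4d830_co.TwoSidedAllPairs
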